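import Pool.Agent.H500.TH.Stm
import Pool.Agent.H225.R2.Cyc

set_option autoImplicit false
set_option linter.unusedSectionVars false

/-!
# Project TH (helper500), part D5 (helper353): characters of bounded order which are trivial on a large
set are unramified at `l`.  An adaptation of `Pool/Agent/H225/R2/Cyc.lean`.
-/

namespace Pool.Agent.H353.TH.TCyc

open NumberField IsDedekindDomain Filter Topology Polynomial
open Pool.Agent.W401.Cheb (GK IsFrob IsInert dens)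
open Pool.Agent.H500.HC (InRay em typ)
open Pool.Agent.H500.R2 (UnrOut SpC ChD)
open Pool.Agent.H500.TH
open Pool.Agent.W528.Ord (dens_nonneg dens_mono dens_or)
open Pool.Agent.H500.Kum (dens_fin fin_mem)
open Pool.Agent.H225.R2.Cyc (dens_zero_mono dens_zero_or dens_zero_finset norm_mem)

section above

variable {E F : Type} [Field E] [NumberField E] [Field F] [NumberField F]

/-- a place above a given place -/
theorem exists_above (i : E →+* F) (lam : HeightOneSpectrum (𝓞 E)) :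
    ∃ L : HeightOneSpectrum (𝓞 F), L.asIdeal.comap (RingOfIntegers.mapRingHom i) = lam.asIdeal := by
  let _ : Algebra E F := i.toAlgebra
  have hprime := lam.isPrime
  obtain ⟨Q, -, hQp, hQ⟩ := Ideal.exists_ideal_over_prime_of_isIntegral (S := 𝓞 F) lam.asIdeal ⊥
    (by
      rw [Ideal.comap_bot_of_injective _ (FaithfulSMul.algebraMap_injective (𝓞 E) (𝓞 F))]
      exact bot_le)
  have hne : Q ≠ ⊥ := by
    intro h
    rw [h, Ideal.comap_bot_of_injective _ (FaithfulSMul.algebraMap_injective (𝓞 E) (𝓞 F))] at hQ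
    exact lam.ne_bot hQ.symm
  exact ⟨⟨Q, hQp, hne⟩, hQ⟩

end above

section core

variable {K E F : Type} [Field K] [NumberField K] [Field E] [NumberField E] [Field F] [NumberField F]

/-- the places for one prime number `r` -/
def Qs (i : E →+* F) (W : HeightOneSpectrum (𝓞 E) → (GK K →* ℂˣ) → Prop) (N m r : ℕ)
    (lam : HeightOneSpectrum (𝓞 E)) : Prop :=
  (Ideal.absNorm lam.asIdeal).Prime ∧
  ∃ L : HeightOneSpectrum (𝓞 F), L.asIdeal.comap (RingOfIntegers.mapRingHom i) = lam.asIdeal ∧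
  ∃ (c e : (K →+* F) → ℕ), Pat r (Ideal.absNorm lam.asIdeal) L c e ∧
  ∃ (θ : GK K →* ℂˣ) (χ : Ideal (𝓞 K) →*₀ ℂ), W lam θ ∧
    ChD (N * Ideal.absNorm lam.asIdeal) θ χ ∧
    ∀ x : 𝓞 K, InRay (N ^ (m + 2)) x →
      IsCoprime (Ideal.span {x}) (Ideal.span {((Ideal.absNorm lam.asIdeal : ℕ) : 𝓞 K)}) →
      χ (Ideal.span {x}) = 1 →
      ∏ t, em t x ^ (c t * ((Ideal.absNorm lam.asIdeal ^ e t - 1) / r)) - 1 ∈ L.asIdeal

theorem coprime_of {w : HeightOneSpectrum (𝓞 K)} {l : ℕ} (h : (l : 𝓞 K) ∉ w.asIdeal) :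
    IsCoprime w.asIdeal (Ideal.span {(l : 𝓞 K)}) := by
  rw [Ideal.isCoprime_iff_sup_eq]
  apply w.isMaximal.out.2
  rw [left_lt_sup]
  intro h1
  exact h (h1 (Ideal.subset_span rfl))

theorem core (h3 : S_TCB1) (h4 : S_TCB2) (i : E →+* F)
    (hcard : Fintype.card (K →+* F) = Module.finrank ℚ K) {N m : ℕ} (hN : 2 ≤ N)
    {V : Set (HeightOneSpectrum (𝓞 K))} (hV : V.Infinite)
    (hVs : ∀ v ∈ V, (N : 𝓞 K) ∉ v.asIdeal ∧ SpC F v)
    (W : HeightOneSpectrum (𝓞 E) → (GK K →* ℂˣ) → Prop)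
    (hfin : ∀ v ∈ V, {lam | ∃ θ, W lam θ ∧ ∃ σ, IsFrob v σ ∧ θ σ ≠ 1}.Finite)
    {r : ℕ} (hr : r.Prime) :
    Tendsto (dens (Qs (K := K) i W N m r)) atTop (𝓝 0) := by
  classical
  rw [Metric.tendsto_atTop]
  intro ε hε
  have hr1 : (1 : ℝ) < r := by exact_mod_cast hr.one_lt
  obtain ⟨C, hC⟩ := h4 K E F i hcard r hr
  obtain ⟨s, hs⟩ : ∃ s : ℕ, C / (r : ℝ) ^ s < ε / 2 := by
    obtain ⟨s, hs⟩ := exists_pow_lt_of_lt_one (show 0 < ε / 2 / (|C| + 1) by positivity)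
      (show 1 / (r : ℝ) < 1 by rw [div_lt_one (by linarith)]; exact hr1)
    refine ⟨s, ?_⟩
    rw [one_div_pow, lt_div_iff₀ (by positivity)] at hs
    have h5 : 0 < 1 / (r : ℝ) ^ s := by positivity
    have h6 : C ≤ |C| := le_abs_self C
    calc C / (r : ℝ) ^ s = C * (1 / (r : ℝ) ^ s) := by ring
      _ ≤ (|C| + 1) * (1 / (r : ℝ) ^ s) := mul_le_mul_of_nonneg_right (by linarith) h5.le
      _ = 1 / (r : ℝ) ^ s * (|C| + 1) := by ring
      _ < ε / 2 := hs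
  obtain ⟨T, x, hTV, hx, hind⟩ := h3 K F hcard (N ^ (m + 2)) r s (by positivity) hr V hV
    (fun v hv => ⟨fun hmem => (hVs v hv).1 (by
      rw [Nat.cast_pow] at hmem
      exact v.isPrime.mem_of_pow_mem _ hmem), (hVs v hv).2⟩)
  have hx0 : ∀ i, x i ≠ 0 := fun i => (hx i).1.1
  have h5 := hC s x hx0 hind
    (fun lam => (Ideal.absNorm lam.asIdeal).Prime ∧ ∃ L : HeightOneSpectrum (𝓞 F),
      L.asIdeal.comap (RingOfIntegers.mapRingHom i) = lam.asIdeal ∧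
      ∃ c e : (K →+* F) → ℕ, Pat r (Ideal.absNorm lam.asIdeal) L c e ∧
        ∀ a, (∀ t, em t (x a) ∉ L.asIdeal) →
          ∏ t, em t (x a) ^ (c t * ((Ideal.absNorm lam.asIdeal ^ e t - 1) / r)) - 1 ∈ L.asIdeal)
    (fun lam hl => hl)
  -- the exceptional places
  have hX2 : {lam : HeightOneSpectrum (𝓞 E) | ∃ w ∈ T,
      ((Ideal.absNorm w.asIdeal : ℕ) : 𝓞 E) ∈ lam.asIdeal}.Finite := by
    have : {lam : HeightOneSpectrum (𝓞 E) | ∃ w ∈ T,
        ((Ideal.absNorm w.asIdeal : ℕ) : 𝓞 E) ∈ lam.asIdeal} =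
        ⋃ w ∈ T, {lam : HeightOneSpectrum (𝓞 E) |
          ((Ideal.absNorm w.asIdeal : ℕ) : 𝓞 E) ∈ lam.asIdeal} := by
      ext lam
      simp only [Set.mem_iUnion, Set.mem_ofPred_eq, exists_prop]
    rw [this]
    refine T.finite_toSet.biUnion fun w _ => fin_mem ?_
    rw [Nat.cast_ne_zero]
    intro h0
    exact w.ne_bot (Ideal.absNorm_eq_zero_iff.1 h0)
  have hX3 : {lam : HeightOneSpectrum (𝓞 E) | ∃ w ∈ T, ∃ θ, W lam θ ∧
      ∃ σ, IsFrob w σ ∧ θ σ ≠ 1}.Finite := by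
    have : {lam : HeightOneSpectrum (𝓞 E) | ∃ w ∈ T, ∃ θ, W lam θ ∧
        ∃ σ, IsFrob w σ ∧ θ σ ≠ 1} =
        ⋃ w ∈ T, {lam : HeightOneSpectrum (𝓞 E) | ∃ θ, W lam θ ∧
          ∃ σ, IsFrob w σ ∧ θ σ ≠ 1} := by
      ext lam
      simp only [Set.mem_iUnion, Set.mem_ofPred_eq, exists_prop]
    rw [this]
    exact T.finite_toSet.biUnion fun w hw => hfin w (hTV w hw)
  obtain ⟨X, hXdef⟩ : ∃ X : HeightOneSpectrum (𝓞 E) → Prop, X = fun lam =>
      (∃ w ∈ T, ((Ideal.absNorm w.asIdeal : ℕ) : 𝓞 E) ∈ lam.asIdeal) ∨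
      (∃ w ∈ T, ∃ θ, W lam θ ∧ ∃ σ, IsFrob w σ ∧ θ σ ≠ 1) := ⟨_, rfl⟩
  have hX : Tendsto (dens X) atTop (𝓝 0) := by
    rw [hXdef]
    exact dens_zero_or (dens_fin _ hX2) (dens_fin _ hX3)
  have h6 : ∀ᶠ n in atTop, dens X n < ε / 2 := hX.eventually (gt_mem_nhds (half_pos hε))
  obtain ⟨n0, hn0⟩ := eventually_atTop.1 (h5.and h6)
  refine ⟨n0, fun n hn => ?_⟩
  rw [Real.dist_eq, sub_zero, abs_of_nonneg (dens_nonneg _ _)]
  obtain ⟨h7, h8⟩ := hn0 n hn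
  refine lt_of_le_of_lt ((dens_mono ?_ n).trans (dens_or _ _ n))
    ((add_lt_add (h7.trans_lt hs) h8).trans_eq (add_halves ε))
  rintro lam ⟨hp, L, hL, c, e, hpat, θ, χ, hWl, hχ, hpr⟩
  by_cases hXl : X lam
  · exact Or.inr hXl
  left
  rw [hXdef] at hXl
  push Not at hXl
  obtain ⟨e2, e3⟩ := hXl
  refine ⟨hp, L, hL, c, e, hpat, fun a _ => ?_⟩
  obtain ⟨hray, w, hw, w1, hw1, e', hspan⟩ := hx a
  have hnl : ∀ w ∈ T, ((Ideal.absNorm lam.asIdeal : ℕ) : 𝓞 K) ∉ w.asIdeal :=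
    fun w hw h9 => e2 w hw (norm_mem hp h9)
  refine hpr (x a) hray ?_ ?_
  · rw [← hspan]
    exact IsCoprime.mul_left (coprime_of (hnl w hw)) ((coprime_of (hnl w1 hw1)).pow_left)
  have hone : ∀ w ∈ T, χ w.asIdeal = 1 := by
    intro w hw
    obtain ⟨σ, hσ⟩ := (Pool.Agent.W401.Frob.main K).1 w
    rw [hχ.frob w ?_ σ hσ, e3 w hw θ hWl σ hσ, Units.val_one]
    intro hmem
    rw [Nat.cast_mul] at hmem
    rcases w.isPrime.mem_or_mem hmem with h9 | h9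
    · exact (hVs w (hTV w hw)).1 h9
    · exact hnl w hw h9
  rw [← hspan, map_mul, map_pow, hone w hw, hone w1 hw1, one_pow, mul_one]

end core

theorem main : S_TStr → S_TPig → S_TCB1 → S_TCB2 → Pool.Agent.H500.HC.S_Deg → S_TCyc := by
  intro h1 h2 h3 h4 h5 K E F _ _ _ _ _ _ i hcard N m hN hm V hV hVs W hW hfin
  classical
  obtain ⟨B, hB⟩ := h1 K F hcard N m hN hm
  have hdeg := h5 E
  have hsm : Tendsto (dens fun lam : HeightOneSpectrum (𝓞 E) =>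
      Ideal.absNorm lam.asIdeal ≤ B) atTop (𝓝 0) :=
    dens_fin _ (Pool.Agent.W352.ChAbs.finite_le B)
  have hpg := dens_fin _ (h2 K E N (m + 2) m (by omega) hm)
  have hQ : Tendsto (dens fun lam : HeightOneSpectrum (𝓞 E) =>
      ∃ r ∈ Nat.divisors m, r.Prime ∧ Qs (K := K) i W N m r lam) atTop (𝓝 0) := by
    refine dens_zero_finset _ _ fun r _ => ?_
    by_cases hr : r.Prime
    · exact dens_zero_mono (fun lam hl => hl.2) (core h3 h4 i hcard hN hV hVs W hfin hr)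
    · refine dens_zero_mono (Q := fun _ => False) (fun lam hl => hr hl.1) (dens_fin _ (by simp))
  refine dens_zero_mono ?_ (dens_zero_or hdeg (dens_zero_or hsm (dens_zero_or hpg hQ)))
  rintro lam ⟨θ, hWl, hunr⟩
  by_cases hp : (Ideal.absNorm lam.asIdeal).Prime
  swap
  · exact Or.inl hp
  right
  by_cases hb : Ideal.absNorm lam.asIdeal ≤ B
  · exact Or.inl hb
  right
  obtain ⟨ho, hpow, hun⟩ := hW lam θ hWl
  obtain ⟨L, hL⟩ := exists_above i lam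
  have hlL : ((Ideal.absNorm lam.asIdeal : ℕ) : 𝓞 F) ∈ L.asIdeal := by
    have h6 : ((Ideal.absNorm lam.asIdeal : ℕ) : 𝓞 E) ∈ L.asIdeal.comap
        (RingOfIntegers.mapRingHom i) := by
      rw [hL]
      exact Ideal.absNorm_mem _
    rw [Ideal.mem_comap, map_natCast] at h6
    exact h6
  obtain ⟨χ, hχ, hcase⟩ := hB L _ hp hlL (not_le.1 hb) θ ho hpow hun
  rcases hcase with hcase | ⟨r, c, e, hr, hrm, hpat, hpr⟩
  · left
    exact ⟨hp, θ, χ, ho, hpow, hun, hunr, hχ, hcase⟩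
  · right
    exact ⟨r, Nat.mem_divisors.2 ⟨hrm, hm.ne'⟩, hr, hp, L, hL, c, e, hpat, θ, χ, hWl, hχ, hpr⟩

end Pool.Agent.H353.TH.TCyc
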